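import Pool.Agent.D0H99.OD.Stm
import Pool.Agent.D0H52.RM.Mo2
import Pool.Agent.D0H52.RM.Cl2

set_option autoImplicit false

/-! Project OD (helper99), module PER: the perturbed random system over the field with two elements. -/

namespace Pool.Agent.D0H52.OD

open Finset Pool.Agent.D0H99.RM Pool.Agent.D0H99.OD Filter Topology Matrix

section system

variable {r : ℕ}

/-- the symmetric matrix of the perturbed system -/
def PM (δ : Fin r → ZMod 2) (κ lam : ZMod 2) (x : X 2 2 r) :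
    Matrix (Fin r × Fin 2) (Fin r × Fin 2) (ZMod 2) := fun p q =>
  if p.1 = q.1 then
    (if p.2 = q.2 then x.2 p.1 p.2 + δ p.1 * lam else ∑ z, sy x.1 p.1 z + δ p.1 * lam)
  else (if p.2 = q.2 then δ p.1 * δ q.1 * κ else sy x.1 p.1 q.1 + δ p.1 * δ q.1 * (lam + κ))

theorem PM_symm (δ : Fin r → ZMod 2) (κ lam : ZMod 2) (x : X 2 2 r) :
    (PM δ κ lam x)ᵀ = PM δ κ lam x := by
  ext p q
  rw [Matrix.transpose_apply]
  unfold PM
  by_cases h1 : p.1 = q.1
  · rw [if_pos h1.symm, if_pos h1]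
    by_cases h2 : p.2 = q.2
    · rw [if_pos h2.symm, if_pos h2, h1, h2]
    · rw [if_neg (fun h => h2 h.symm), if_neg h2, h1]
  · rw [if_neg (fun h => h1 h.symm), if_neg h1]
    by_cases h2 : p.2 = q.2
    · rw [if_pos h2.symm, if_pos h2, mul_comm (δ q.1)]
    · rw [if_neg (fun h => h2 h.symm), if_neg h2, Pool.Agent.D0H52.RM.sy_symm, mul_comm (δ q.1)]

/-- the left side of the perturbed system -/
def EP (δ : Fin r → ZMod 2) (κ lam : ZMod 2) (x : X 2 2 r) (a : Fin r → V 2 2) (i : Fin r)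
    (b : Fin 2) : ZMod 2 :=
  (∑ y, sy x.1 i y * (a i b - a y b) + ∑ s, a i s * x.2 i s + a i b * x.2 i b) +
    δ i * (∑ y, δ y * (lam * a y b + κ * (a y 0 + a y 1)) + lam * a i (b + 1) +
      κ * (a i 0 + a i 1))

theorem rowsum (u v : ZMod 2) (f : Fin 2 → ZMod 2) (s : Fin 2) :
    ∑ t, (if s = t then u else v) * f t = u * f s + v * f (s + 1) := by
  rw [Fin.sum_univ_two]
  fin_cases s
  · simp
  · simp [add_comm]

theorem PM_mul (δ : Fin r → ZMod 2) (κ lam : ZMod 2) (x : X 2 2 r) (a : Fin r → V 2 2)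
    (i : Fin r) (s : Fin 2) :
    (PM δ κ lam x *ᵥ (fun p : Fin r × Fin 2 => a p.1 p.2)) (i, s) = EP δ κ lam x a i (s + 1) := by
  change ∑ q : Fin r × Fin 2, PM δ κ lam x (i, s) q * a q.1 q.2 = _
  rw [Fintype.sum_prod_type]
  have hsq : ∀ c : ZMod 2, c * c = c := by decide
  have hadd : ∀ c : ZMod 2, c + c = 0 := by decide
  have h01 : ∀ f : Fin 2 → ZMod 2, f 0 + f 1 = f s + f (s + 1) := by
    intro f
    fin_cases s
    · rfl
    · exact add_comm _ _
  have h1 : ∀ y, ∑ t, PM δ κ lam x (i, s) (y, t) * a y t =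
      (sy x.1 i y * a y (s + 1) + δ i * (δ y * (lam * a y (s + 1) + κ * (a y 0 + a y 1)))) +
        if i = y then ((∑ z, sy x.1 i z) * a i (s + 1) + x.2 i s * a i s +
          δ i * (lam * a i s + κ * (a i 0 + a i 1))) else 0 := by
    intro y
    by_cases hiy : i = y
    · subst hiy
      rw [if_pos rfl, Pool.Agent.D0H52.RM.sy_self]
      have h2 : ∑ t, PM δ κ lam x (i, s) (i, t) * a i t =
          ∑ t, (if s = t then x.2 i s + δ i * lam else ∑ z, sy x.1 i z + δ i * lam) * a i t := by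
        refine Finset.sum_congr rfl fun t _ => ?_
        unfold PM
        rw [if_pos rfl]
      rw [h2, rowsum _ _, h01]
      have h3 := hsq (δ i)
      have h4 : δ i * (δ i * (lam * a i (s + 1) + κ * (a i s + a i (s + 1)))) =
          δ i * (lam * a i (s + 1) + κ * (a i s + a i (s + 1))) := by
        rw [← mul_assoc, h3]
      rw [h4]
      have h5 := hadd (δ i * (κ * (a i s + a i (s + 1))))
      linear_combination (-1 : ZMod 2) * h5
    · rw [if_neg hiy, add_zero, h01]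
      have h2 : ∑ t, PM δ κ lam x (i, s) (y, t) * a y t =
          ∑ t, (if s = t then δ i * δ y * κ else sy x.1 i y + δ i * δ y * (lam + κ)) * a y t := by
        refine Finset.sum_congr rfl fun t _ => ?_
        unfold PM
        rw [if_neg hiy]
      rw [h2, rowsum _ _]
      ring
  simp only [h1]
  rw [Finset.sum_add_distrib, Finset.sum_ite_eq, if_pos (Finset.mem_univ _),
    Finset.sum_add_distrib, ← Finset.mul_sum]
  unfold EP
  have h2 : ∑ t, a i t * x.2 i t = a i s * x.2 i s + a i (s + 1) * x.2 i (s + 1) := by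
    rw [Fin.sum_univ_two]
    exact h01 (fun t => a i t * x.2 i t)
  have h3 : s + 1 + 1 = s := by
    fin_cases s <;> rfl
  have h4 : ∑ y, sy x.1 i y * (a i (s + 1) - a y (s + 1)) =
      (∑ z, sy x.1 i z) * a i (s + 1) + ∑ y, sy x.1 i y * a y (s + 1) := by
    rw [Finset.sum_mul, ← Finset.sum_add_distrib]
    refine Finset.sum_congr rfl fun y _ => ?_
    rw [CharTwo.sub_eq_add]
    ring
  rw [h2, h3, h4]
  have h5 := hadd (a i (s + 1) * x.2 i (s + 1))
  linear_combination (-1 : ZMod 2) * h5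

theorem psol_iff (δ : Fin r → ZMod 2) (κ lam : ZMod 2) (x : X 2 2 r) (a : Fin r → V 2 2) :
    PSol δ κ lam (sy x.1) x.2 a ↔
      PM δ κ lam x *ᵥ (fun p : Fin r × Fin 2 => a p.1 p.2) = 0 := by
  constructor
  · intro h
    funext p
    exact (PM_mul δ κ lam x a p.1 p.2).trans (h p.1 (p.2 + 1))
  · intro h i b
    have h3 : b + 1 + 1 = b := by
      fin_cases b <;> rfl
    have h1 := PM_mul δ κ lam x a i (b + 1)
    rw [h3, h] at h1
    exact h1.symm

theorem PM_one (δ : Fin r → ZMod 2) (hδ : ∑ i, δ i = 0) (κ lam : ZMod 2) (x : X 2 2 r)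
    (i : Fin r) (s : Fin 2) :
    (PM δ κ lam x *ᵥ (fun _ : Fin r × Fin 2 => (1 : ZMod 2))) (i, s) = x.2 i s + δ i * lam := by
  have hadd : ∀ c : ZMod 2, c + c = 0 := by decide
  have h1 := PM_mul δ κ lam x (fun _ _ => 1) i s
  refine h1.trans ?_
  unfold EP
  have h2 : ∑ t, (1 : ZMod 2) * x.2 i t = x.2 i s + x.2 i (s + 1) := by
    rw [Fin.sum_univ_two]
    fin_cases s
    · simp
    · simp [add_comm]
  have h3 : ∑ y, sy x.1 i y * ((1 : ZMod 2) - 1) = 0 := by
    apply Finset.sum_eq_zero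
    intro y _
    rw [sub_self, mul_zero]
  have h4 : ∑ y, δ y * (lam * 1 + κ * ((1 : ZMod 2) + 1)) = 0 := by
    rw [← Finset.sum_mul, hδ, zero_mul]
  change (∑ y, sy x.1 i y * ((1 : ZMod 2) - 1) + ∑ t, (1 : ZMod 2) * x.2 i t +
    1 * x.2 i (s + 1)) + δ i * (∑ y, δ y * (lam * 1 + κ * ((1 : ZMod 2) + 1)) + lam * 1 +
      κ * ((1 : ZMod 2) + 1)) = _
  rw [h2, h3, h4, hadd 1]
  have h5 := hadd (x.2 i (s + 1))
  linear_combination h5

theorem ppar (δ : Fin r → ZMod 2) (hδ : ∑ i, δ i = 0) (κ lam : ZMod 2) (x : X 2 2 r) :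
    ∃ d : ℕ, nsolP δ κ lam x = 2 ^ d ∧ ((d : ℕ) : ZMod 2) = ∑ i, ∑ s, x.2 i s := by
  classical
  refine ⟨Module.finrank (ZMod 2) (LinearMap.ker (PM δ κ lam x).mulVecLin), ?_, ?_⟩
  · have h1 : nsolP δ κ lam x = Nat.card (LinearMap.ker (PM δ κ lam x).mulVecLin) := by
      unfold nsolP
      rw [← Nat.card_coe_set_eq]
      refine Nat.card_congr ((Equiv.curry (Fin r) (Fin 2) (ZMod 2)).subtypeEquiv ?_).symm
      intro u
      have h2 := psol_iff δ κ lam x (Function.curry u)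
      have h3 : (fun p : Fin r × Fin 2 => Function.curry u p.1 p.2) = u := rfl
      rw [h3] at h2
      exact h2.symm
    rw [h1, Module.natCard_eq_pow_finrank (K := ZMod 2), Nat.card_zmod]
  · have hdiag : ∀ i s, PM δ κ lam x (i, s) (i, s) = x.2 i s + δ i * lam := by
      intro i s
      unfold PM
      rw [if_pos rfl, if_pos rfl]
    have h1 := Pool.Agent.D0H52.RM.parity (PM δ κ lam x) (PM_symm δ κ lam x) (fun _ => 1) (by
      rintro ⟨i, b⟩
      rw [hdiag]
      exact PM_one δ hδ κ lam x i b) (by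
      rw [Fintype.card_prod, Fintype.card_fin, Fintype.card_fin]
      exact (even_two).mul_left r)
    rw [h1, Fintype.sum_prod_type]
    refine Finset.sum_congr rfl fun i _ => ?_
    have h2 : ∑ s, (1 : ZMod 2) * PM δ κ lam x (i, s) (i, s) = ∑ s, (x.2 i s + δ i * lam) := by
      refine Finset.sum_congr rfl fun s _ => ?_
      rw [hdiag, one_mul]
    refine h2.trans ?_
    rw [Finset.sum_add_distrib]
    have h3 : ∑ _s : Fin 2, δ i * lam = 0 := by
      rw [Fin.sum_univ_two]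
      exact CharTwo.add_self_eq_zero _
    rw [h3, add_zero]

open Classical in
theorem nsolP_eq (δ : Fin r → ZMod 2) (κ lam : ZMod 2) (x : X 2 2 r) :
    nsolP δ κ lam x = ∑ a : Fin r → V 2 2, if PSol δ κ lam (sy x.1) x.2 a then 1 else 0 := by
  unfold nsolP
  rw [← Finset.card_filter, ← Set.ncard_coe_finset]
  congr 1
  ext a
  simp

/-- comparison with the homogeneous system -/
theorem total_le (δ : Fin r → ZMod 2) (κ lam : ZMod 2) :
    ∑ x : X 2 2 r, nsolP δ κ lam x ≤ ∑ x : X 2 2 r, nsol x := by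
  classical
  simp only [nsolP_eq, Pool.Agent.D0H52.RM.nsol_eq]
  rw [Finset.sum_comm]
  rw [Finset.sum_comm (f := fun (x : X 2 2 r) (a : Fin r → V 2 2) =>
    if Sol (fun _ => 1) (sy x.1) x.2 a then 1 else 0)]
  refine Finset.sum_le_sum fun a _ => ?_
  rw [← Finset.card_filter, ← Finset.card_filter]
  by_cases hex : ∃ x0 : X 2 2 r, PSol δ κ lam (sy x0.1) x0.2 a
  · obtain ⟨x0, hx0⟩ := hex
    refine Finset.card_le_card_of_injOn (fun x => x - x0) ?_ ?_
    · intro x hx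
      have hx' := (Finset.mem_filter.mp (Finset.mem_coe.mp hx)).2
      refine Finset.mem_coe.mpr (Finset.mem_filter.mpr ⟨Finset.mem_univ _, ?_⟩)
      have h1 := Pool.Agent.D0H52.RM.mem_ker_Lam (fun _ : Fin r => (1 : ZMod 2)) a (x - x0)
      rw [← h1, LinearMap.mem_ker, map_sub]
      funext p
      have e1 := hx' p.1 p.2
      have e2 := hx0 p.1 p.2
      change (∑ y, 1 * sy x.1 p.1 y * (a p.1 p.2 - a y p.2) +
        ∑ s, a p.1 s * x.2 p.1 s + a p.1 p.2 * x.2 p.1 p.2) -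
        (∑ y, 1 * sy x0.1 p.1 y * (a p.1 p.2 - a y p.2) +
        ∑ s, a p.1 s * x0.2 p.1 s + a p.1 p.2 * x0.2 p.1 p.2) = 0
      simp only [one_mul]
      linear_combination e1 - e2
    · intro x _ y _ hxy
      exact sub_left_injective hxy
  · have h1 : (Finset.univ.filter fun x : X 2 2 r => PSol δ κ lam (sy x.1) x.2 a) = ∅ := by
      rw [Finset.filter_eq_empty_iff]
      intro x _ hx
      exact hex ⟨x, hx⟩
    rw [h1, Finset.card_empty]
    exact Nat.zero_le _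

theorem psol_flip (δ : Fin r → ZMod 2) (κ lam : ZMod 2) (i : Fin r) (s : Fin 2) (x : X 2 2 r)
    (a : Fin r → V 2 2) (ha : a i s = 0) :
    PSol δ κ lam (sy (Pool.Agent.D0H52.RM.flip i s x).1) (Pool.Agent.D0H52.RM.flip i s x).2 a ↔
      PSol δ κ lam (sy x.1) x.2 a := by
  classical
  have h0 : ∀ j b, a j b * (Pool.Agent.D0H52.RM.flip i s x).2 j b = a j b * x.2 j b := by
    intro j b
    change a j b * (x.2 j b + if j = i ∧ b = s then 1 else 0) = _
    by_cases h : j = i ∧ b = s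
    · rw [h.1, h.2, ha, zero_mul, zero_mul]
    · rw [if_neg h, add_zero]
  have h1 : ∀ j b, EP δ κ lam (Pool.Agent.D0H52.RM.flip i s x) a j b = EP δ κ lam x a j b := by
    intro j b
    unfold EP
    simp only [h0]
    rfl
  constructor
  · intro h j b
    exact (h1 j b).symm.trans (h j b)
  · intro h j b
    exact (h1 j b).trans (h j b)

theorem psol_one (δ : Fin r → ZMod 2) (hδ : ∑ i, δ i = 0) (κ lam : ZMod 2) (x : X 2 2 r) :
    PSol δ κ lam (sy x.1) x.2 (fun _ _ => 1) ↔ x.2 = fun i _ => δ i * lam := by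
  have h1 := PM_one δ hδ κ lam x
  rw [psol_iff]
  have hc : ∀ u v : ZMod 2, u + v = 0 ↔ u = v := by decide
  constructor
  · intro h
    funext i b
    rw [← hc, ← h1 i b]
    exact congrFun h (i, b)
  · intro h
    funext p
    refine (h1 p.1 p.2).trans ?_
    rw [h]
    exact CharTwo.add_self_eq_zero _

open Classical in
/-- the signed sum -/
theorem psigned (δ : Fin r → ZMod 2) (hδ : ∑ i, δ i = 0) (κ lam : ZMod 2) :
    ∑ x : X 2 2 r with Pool.Agent.D0H52.RM.pr x = 0, nsolP δ κ lam x =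
      ∑ x : X 2 2 r with Pool.Agent.D0H52.RM.pr x ≠ 0, nsolP δ κ lam x +
        Fintype.card (∀ i : Fin r, Fin (i : ℕ) → ZMod 2) := by
  have hsw : ∀ (Q : X 2 2 r → Prop) [DecidablePred Q], ∑ x : X 2 2 r with Q x, nsolP δ κ lam x =
      ∑ a : Fin r → V 2 2, (Finset.univ.filter fun x : X 2 2 r =>
        PSol δ κ lam (sy x.1) x.2 a ∧ Q x).card := by
    intro Q _
    simp only [nsolP_eq]
    rw [Finset.sum_comm]
    refine Finset.sum_congr rfl fun a _ => ?_
    rw [← Finset.card_filter, Finset.filter_filter]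
    congr 1
    ext x
    simp only [Finset.mem_filter]
    tauto
  rw [hsw, hsw]
  rw [← Finset.add_sum_erase _ _ (Finset.mem_univ (fun _ _ => 1 : Fin r → V 2 2))]
  rw [← Finset.add_sum_erase _ (fun a : Fin r → V 2 2 => (Finset.univ.filter
    fun x : X 2 2 r => PSol δ κ lam (sy x.1) x.2 a ∧ Pool.Agent.D0H52.RM.pr x ≠ 0).card)
    (Finset.mem_univ (fun _ _ => 1 : Fin r → V 2 2))]
  have h1 : ∀ a ∈ (Finset.univ : Finset (Fin r → V 2 2)).erase (fun _ _ => 1),
      (Finset.univ.filter fun x : X 2 2 r =>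
        PSol δ κ lam (sy x.1) x.2 a ∧ Pool.Agent.D0H52.RM.pr x = 0).card =
      (Finset.univ.filter fun x : X 2 2 r =>
        PSol δ κ lam (sy x.1) x.2 a ∧ Pool.Agent.D0H52.RM.pr x ≠ 0).card := by
    intro a ha
    have h2 : ∃ i s, a i s = 0 := by
      by_contra hcon
      push Not at hcon
      apply (Finset.mem_erase.mp ha).1
      funext i s
      have h3 : ∀ c : ZMod 2, c ≠ 0 → c = 1 := by decide
      exact h3 _ (hcon i s)
    obtain ⟨i, s, his⟩ := h2
    exact Pool.Agent.D0H52.RM.card_flip i s _ (fun x => psol_flip δ κ lam i s x a his)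
  rw [Finset.sum_congr rfl h1]
  have hpr : ∀ x : X 2 2 r, x.2 = (fun i _ => δ i * lam) → Pool.Agent.D0H52.RM.pr x = 0 := by
    intro x hx
    unfold Pool.Agent.D0H52.RM.pr
    rw [hx]
    apply Finset.sum_eq_zero
    intro i _
    rw [Fin.sum_univ_two]
    exact CharTwo.add_self_eq_zero _
  have h2 : (Finset.univ.filter fun x : X 2 2 r =>
      PSol δ κ lam (sy x.1) x.2 (fun _ _ => 1) ∧ Pool.Agent.D0H52.RM.pr x ≠ 0).card = 0 := by
    rw [Finset.card_eq_zero, Finset.filter_eq_empty_iff]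
    rintro x - ⟨hx1, hx2⟩
    rw [psol_one δ hδ κ lam] at hx1
    exact hx2 (hpr x hx1)
  have h3 : (Finset.univ.filter fun x : X 2 2 r =>
      PSol δ κ lam (sy x.1) x.2 (fun _ _ => 1) ∧ Pool.Agent.D0H52.RM.pr x = 0).card =
        Fintype.card (∀ i : Fin r, Fin (i : ℕ) → ZMod 2) := by
    rw [← Finset.card_univ (α := ∀ i : Fin r, Fin (i : ℕ) → ZMod 2)]
    refine Finset.card_nbij' (fun x => x.1) (fun B => (B, fun i _ => δ i * lam)) ?_ ?_ ?_ ?_
    · intro x _
      exact Finset.mem_coe.mpr (Finset.mem_univ _)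
    · intro B _
      refine Finset.mem_coe.mpr (Finset.mem_filter.mpr ⟨Finset.mem_univ _, ?_, ?_⟩)
      · exact (psol_one δ hδ κ lam (B, fun i _ => δ i * lam)).mpr rfl
      · exact hpr _ rfl
    · intro x hx
      have hx' := (Finset.mem_filter.mp (Finset.mem_coe.mp hx)).2.1
      rw [psol_one δ hδ κ lam] at hx'
      exact Prod.ext rfl hx'.symm
    · intro B _
      rfl
  rw [h2, h3]
  ring

open Classical in
/-- all inequalities -/
theorem pcounts (hr : 1 ≤ r) (n : X 2 2 r → ℕ)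
    (hn : ∀ x, ∃ d : ℕ, n x = 2 ^ d ∧ ((d : ℕ) : ZMod 2) = Pool.Agent.D0H52.RM.pr x) :
    (2 * Nat.card (X 2 2 r) ≤ ∑ x : X 2 2 r with Pool.Agent.D0H52.RM.pr x = 0, n x +
      3 * ({x : X 2 2 r | n x = 1}.ncard)) ∧
    (8 * Nat.card (X 2 2 r) ≤ ∑ x : X 2 2 r with Pool.Agent.D0H52.RM.pr x = 0, n x +
      ∑ x : X 2 2 r with Pool.Agent.D0H52.RM.pr x = 0, n x +
      ∑ x : X 2 2 r with Pool.Agent.D0H52.RM.pr x ≠ 0, n x +
      6 * ({x : X 2 2 r | n x ≤ 2}.ncard)) := by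
  choose d hd1 hd2 using hn
  let Ev : Finset (X 2 2 r) := Finset.univ.filter fun x => Pool.Agent.D0H52.RM.pr x = 0
  let Od : Finset (X 2 2 r) := Finset.univ.filter fun x => Pool.Agent.D0H52.RM.pr x ≠ 0
  have hEO : Ev.card = Od.card := by
    have h1 := Pool.Agent.D0H52.RM.card_flip (m := 2) (r := r) ⟨0, by omega⟩ ⟨0, by omega⟩
      (fun _ => True) (fun x => Iff.rfl)
    simp only [true_and] at h1
    exact h1
  have hEO2 : Ev.card + Od.card = Nat.card (X 2 2 r) := by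
    rw [Nat.card_eq_fintype_card, ← Finset.card_univ]
    exact Finset.card_filter_add_card_filter_not _
  have hevd : ∀ x ∈ Ev, Even (d x) := by
    intro x hx
    have h1 := (Finset.mem_filter.mp hx).2
    rw [← hd2] at h1
    exact (ZMod.natCast_eq_zero_iff_even).mp h1
  have hodd : ∀ x ∈ Od, Odd (d x) := by
    intro x hx
    have h1 := (Finset.mem_filter.mp hx).2
    rw [← hd2, Ne, ZMod.natCast_eq_zero_iff_even, Nat.not_even_iff_odd] at h1
    exact h1
  -- pointwise facts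
  have pe : ∀ x ∈ Ev, 4 ≤ n x + 3 * (if n x = 1 then 1 else 0) := by
    intro x hx
    obtain ⟨k, hk⟩ := hevd x hx
    rw [hd1]
    rcases Nat.eq_zero_or_pos k with h0 | h0
    · have : d x = 0 := by omega
      rw [this]
      norm_num
    · have h5 : 2 ^ 2 ≤ 2 ^ d x := Nat.pow_le_pow_right (by norm_num) (by omega)
      omega
  have po : ∀ x ∈ Od, 8 ≤ n x + 6 * (if n x = 2 then 1 else 0) := by
    intro x hx
    obtain ⟨k, hk⟩ := hodd x hx
    rw [hd1]
    rcases Nat.eq_zero_or_pos k with h0 | h0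
    · have : d x = 1 := by omega
      rw [this]
      norm_num
    · have h5 : 2 ^ 3 ≤ 2 ^ d x := Nat.pow_le_pow_right (by norm_num) (by omega)
      omega
  -- sums
  have hn0 : ∑ x ∈ Ev, (if n x = 1 then 1 else 0) ≤ {x : X 2 2 r | n x = 1}.ncard := by
    rw [← Finset.card_filter]
    rw [← Set.ncard_coe_finset]
    apply Set.ncard_le_ncard _ (Set.toFinite _)
    intro x hx
    exact (Finset.mem_filter.mp (Finset.mem_coe.mp hx)).2
  have hn01 : ∑ x ∈ Ev, (if n x = 1 then 1 else 0) + ∑ x ∈ Od, (if n x = 2 then 1 else 0) ≤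
      {x : X 2 2 r | n x ≤ 2}.ncard := by
    rw [← Finset.card_filter, ← Finset.card_filter]
    rw [← Finset.card_union_of_disjoint]
    · rw [← Set.ncard_coe_finset]
      apply Set.ncard_le_ncard _ (Set.toFinite _)
      intro x hx
      rcases Finset.mem_union.mp (Finset.mem_coe.mp hx) with h1 | h1
      · have h2 := (Finset.mem_filter.mp h1).2
        change n x ≤ 2
        omega
      · have h2 := (Finset.mem_filter.mp h1).2
        change n x ≤ 2
        omega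
    · rw [Finset.disjoint_left]
      intro x h1 h2
      have h3 := (Finset.mem_filter.mp (Finset.mem_filter.mp h1).1).2
      have h4 := (Finset.mem_filter.mp (Finset.mem_filter.mp h2).1).2
      exact h4 h3
  have s1 : 4 * Ev.card ≤ ∑ x ∈ Ev, n x + 3 * ∑ x ∈ Ev, (if n x = 1 then 1 else 0) := by
    rw [Finset.mul_sum, ← Finset.sum_add_distrib, mul_comm, ← smul_eq_mul, ← Finset.sum_const]
    exact Finset.sum_le_sum fun x hx => pe x hx
  have s2 : 8 * Od.card ≤ ∑ x ∈ Od, n x + 6 * ∑ x ∈ Od, (if n x = 2 then 1 else 0) := by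
    rw [Finset.mul_sum, ← Finset.sum_add_distrib, mul_comm, ← smul_eq_mul, ← Finset.sum_const]
    exact Finset.sum_le_sum fun x hx => po x hx
  refine ⟨?_, ?_⟩
  · change _ ≤ ∑ x ∈ Ev, n x + _
    omega
  · change _ ≤ ∑ x ∈ Ev, n x + ∑ x ∈ Ev, n x + ∑ x ∈ Od, n x + _
    omega

end system

theorem t_PER : S_PER := by
  classical
  intro ε hε
  have hL : (0 : ℝ) < (2 : ℝ) ^ 2 := by norm_num
  let q : ℝ := ((2 : ℝ) ^ 2 - 1) / (2 : ℝ) ^ 2
  have hq0 : 0 ≤ q := by
    change 0 ≤ ((2 : ℝ) ^ 2 - 1) / (2 : ℝ) ^ 2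
    norm_num
  have hq1 : q < 1 := by
    change ((2 : ℝ) ^ 2 - 1) / (2 : ℝ) ^ 2 < 1
    norm_num
  let q' : ℝ := ((2 : ℝ) ^ 2)⁻¹
  have hq0' : 0 ≤ q' := inv_nonneg.mpr hL.le
  have hq1' : q' < 1 := inv_lt_one_of_one_lt₀ (by norm_num)
  let C : ℝ := 2 ^ (2 ^ 2 * 2 ^ 2)
  have htend : Tendsto (fun r : ℕ => C * q ^ r + q' ^ r) atTop (𝓝 0) := by
    have h1 := (tendsto_pow_atTop_nhds_zero_of_lt_one hq0 hq1).const_mul C
    have h2 := h1.add (tendsto_pow_atTop_nhds_zero_of_lt_one hq0' hq1')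
    rw [mul_zero, add_zero] at h2
    exact h2
  obtain ⟨r0, hr0⟩ := eventually_atTop.mp (htend.eventually (gt_mem_nhds hε))
  refine ⟨r0 + 1, fun r hr δ hδ κ lam => ?_⟩
  have hsm := hr0 r (by omega)
  have hm : Even 2 := even_two
  obtain ⟨c1, c2⟩ := pcounts (r := r) (by omega) (nsolP δ κ lam) (fun x => ppar δ hδ κ lam x)
  have htot0 := Pool.Agent.D0H52.RM.total (r := r) Pool.Agent.D0H52.RM.cl2 hm
  have htot : (∑ x : X 2 2 r, nsolP δ κ lam x) * (2 ^ 2) ^ r ≤
      Nat.card (X 2 2 r) * (3 * (2 ^ 2) ^ r + 2 ^ (2 ^ 2 * 2 ^ 2) * (2 ^ 2 - 1) ^ r) :=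
    (Nat.mul_le_mul_right _ (total_le δ κ lam)).trans htot0
  have hsig := psigned (r := r) δ hδ κ lam
  have hcX := Pool.Agent.D0H52.RM.card_X (m := 2) (r := r)
  set E := ∑ x : X 2 2 r with Pool.Agent.D0H52.RM.pr x = 0, nsolP δ κ lam x with hE
  set O := ∑ x : X 2 2 r with Pool.Agent.D0H52.RM.pr x ≠ 0, nsolP δ κ lam x with hO
  have hEO : ∑ x : X 2 2 r, nsolP δ κ lam x = E + O :=
    (Finset.sum_filter_add_sum_filter_not _ _ _).symm
  rw [hEO] at htot
  set N := Nat.card (X 2 2 r) with hN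
  set β := Fintype.card (∀ i : Fin r, Fin (i : ℕ) → ZMod 2) with hβ
  have h2m : 1 ≤ 2 ^ 2 := by norm_num
  have hLr : (0 : ℝ) < ((2 : ℝ) ^ 2) ^ r := pow_pos hL r
  have e1 : ((E : ℝ) + O) * ((2 : ℝ) ^ 2) ^ r ≤
      N * (3 * ((2 : ℝ) ^ 2) ^ r + C * ((2 : ℝ) ^ 2 - 1) ^ r) := by
    have h3 : (((E + O) * (2 ^ 2) ^ r : ℕ) : ℝ) ≤
        ((N * (3 * (2 ^ 2) ^ r + 2 ^ (2 ^ 2 * 2 ^ 2) * (2 ^ 2 - 1) ^ r) : ℕ) : ℝ) := by
      exact_mod_cast htot
    push_cast [Nat.cast_sub h2m] at h3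
    change ((E : ℝ) + O) * ((2 : ℝ) ^ 2) ^ r ≤
      N * (3 * ((2 : ℝ) ^ 2) ^ r + 2 ^ (2 ^ 2 * 2 ^ 2) * ((2 : ℝ) ^ 2 - 1) ^ r)
    norm_num at h3 ⊢
    exact h3
  have e2 : ((2 : ℝ) ^ 2 - 1) ^ r = q ^ r * ((2 : ℝ) ^ 2) ^ r := by
    rw [← mul_pow]
    congr 1
    change _ = ((2 : ℝ) ^ 2 - 1) / (2 : ℝ) ^ 2 * (2 : ℝ) ^ 2
    rw [div_mul_cancel₀ _ hL.ne']
  have e3 : (E : ℝ) + O ≤ N * (3 + C * q ^ r) := by
    refine le_of_mul_le_mul_right ?_ hLr
    rw [e2] at e1
    calc _ ≤ _ := e1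
      _ = _ := by ring
  have e4 : (E : ℝ) = O + β := by exact_mod_cast hsig
  have e5 : (β : ℝ) = N * q' ^ r := by
    have h3 : (N : ℝ) = β * ((2 : ℝ) ^ 2) ^ r := by exact_mod_cast hcX
    rw [h3]
    change (β : ℝ) = β * ((2 : ℝ) ^ 2) ^ r * (((2 : ℝ) ^ 2)⁻¹) ^ r
    rw [inv_pow, mul_assoc, mul_inv_cancel₀ hLr.ne', mul_one]
  have hN0 : (0 : ℝ) ≤ N := Nat.cast_nonneg _
  have hβ0 : (0 : ℝ) ≤ β := Nat.cast_nonneg _
  have hO0 : (0 : ℝ) ≤ O := Nat.cast_nonneg _
  have e6 : (E : ℝ) ≤ N * (3 / 2 + ε / 2) := by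
    have h3 : N * (C * q ^ r + q' ^ r) ≤ N * ε := mul_le_mul_of_nonneg_left hsm.le hN0
    nlinarith
  have e7 : (O : ℝ) ≤ N * (3 / 2 + ε / 2) := by linarith
  have f1 : (2 : ℝ) * N ≤ E + 3 * ({x : X 2 2 r | nsolP δ κ lam x = 1}.ncard : ℝ) := by
    exact_mod_cast c1
  have f2 : (8 : ℝ) * N ≤ E + E + O + 6 * ({x : X 2 2 r | nsolP δ κ lam x ≤ 2}.ncard : ℝ) := by
    exact_mod_cast c2
  have hNε : 0 ≤ N * ε := mul_nonneg hN0 hε.le
  refine ⟨?_, ?_⟩
  · nlinarith
  · nlinarith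

end Pool.Agent.D0H52.OD
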