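import Pool.Agent.D0H99.OD.Stm2
import Pool.Agent.D0H52.OD.Per

set_option autoImplicit false

/-! Project OD (helper99), part 2, first half of CON: the second moment over the matrices. -/

namespace Pool.Agent.D0H52.OD.Mom2

open Finset Pool.Agent.D0H99.RM Pool.Agent.D0H99.OD

/-- the four pairs of coordinates -/
abbrev G : Type := Fin 4 → ZMod 2 × ZMod 2

/-- the three affine conditions -/
def K (t : Fin 3) (p : ZMod 2 × ZMod 2) : Prop :=
  if t = 0 then p.1 = 0 else if t = 1 then p.2 = 0 else p.1 + p.2 = 1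

instance (t : Fin 3) : DecidablePred (K t) := fun p => by
  unfold K
  infer_instance

/-- the form of a difference -/
def q (g h : G) : ZMod 2 :=
  ((g 0).1 - (h 0).1) * ((g 1).2 - (h 1).2) + ((g 1).1 - (h 1).1) * ((g 0).2 - (h 0).2) +
    (((g 2).1 - (h 2).1) * ((g 3).2 - (h 3).2) + ((g 3).1 - (h 3).1) * ((g 2).2 - (h 2).2))

/-- the exchange of the coordinates -/
def sw : Fin 4 → Fin 4 := ![1, 0, 3, 2]

theorem sw_sw (s : Fin 4) : sw (sw s) = s := by
  revert s
  decide

/-- the embedding -/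
def io (g : G) : V 2 4 × V 2 4 := (fun s => (g s).1, fun s => (g (sw s)).2)

theorem io_inj : Function.Injective io := by
  intro g h hgh
  funext s
  have h1 : (g s).1 = (h s).1 := congrFun (congrArg Prod.fst hgh) s
  have h2 : (g (sw (sw s))).2 = (h (sw (sw s))).2 := congrFun (congrArg Prod.snd hgh) (sw s)
  rw [sw_sw] at h2
  exact Prod.ext h1 h2

theorem io_iso (g h : G) (hq : q g h = 0) : Iso (io g) (io h) := by
  unfold Iso
  rw [Fin.sum_univ_four]
  rw [← hq]
  unfold q
  change ((g 0).1 - (h 0).1) * ((g 1).2 - (h 1).2) + ((g 1).1 - (h 1).1) * ((g 0).2 - (h 0).2) +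
    ((g 2).1 - (h 2).1) * ((g 3).2 - (h 3).2) + ((g 3).1 - (h 3).1) * ((g 2).2 - (h 2).2) = _
  ring

theorem K_card : ∀ t : Fin 3, (Finset.univ.filter (K t)).card = 2 := by decide

theorem K_diff : ∀ t t' : Fin 3, t ≠ t' → ∃ p u p' u' : ZMod 2 × ZMod 2, K t p ∧ K t u ∧ K t' p' ∧
    K t' u' ∧ (p.1 - u.1) * (p'.2 - u'.2) + (p'.1 - u'.1) * (p.2 - u.2) ≠ 0 := by
  decide

theorem K_ne : ∀ t : Fin 3, ∃ p, K t p := by decide

theorem cl3 (I : Finset G) (hZ : ∀ g ∈ I, ∀ s, (g s).1 * (g s).2 = 0)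
    (hI : ∀ g ∈ I, ∀ h ∈ I, q g h = 0) :
    I.card < 16 ∨ ∃ i j : Fin 3, ∀ g ∈ I, ∀ s : Fin 4, K (if (s : ℕ) < 2 then i else j) (g s) := by
  classical
  by_cases hcard : I.card < 16
  · exact Or.inl hcard
  right
  push Not at hcard
  have hpos : 0 < I.card := by omega
  obtain ⟨g0, h0⟩ := Finset.card_pos.mp hpos
  obtain ⟨W, hW1, hW2⟩ := Pool.Agent.D0H52.RM.span_card (I.image io) (io g0)
    (Finset.mem_image_of_mem _ h0) (by
      intro v hv w hw
      obtain ⟨g, hg, rfl⟩ := Finset.mem_image.mp hv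
      obtain ⟨h, hh, rfl⟩ := Finset.mem_image.mp hw
      exact io_iso g h (hI g hg h hh))
  have hcos : ∀ w ∈ W, ∃ g ∈ I, io g = io g0 + w := by
    have h1 : Function.Injective
        (fun g : I => (⟨io g.1 - io g0, hW1 _ (Finset.mem_image_of_mem _ g.2)⟩ : W)) := by
      intro v w h
      have h2 := congrArg Subtype.val h
      simp only at h2
      exact Subtype.ext (io_inj (sub_left_inj.mp h2))
    have h2 : Nat.card I = Nat.card W := by
      apply le_antisymm
      · exact Nat.card_le_card_of_injective _ h1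
      · rw [Nat.card_eq_fintype_card (α := I), Fintype.card_coe]
        exact hW2.trans (by norm_num; exact hcard)
    have h3 := (Nat.bijective_iff_injective_and_card _).mpr ⟨h1, h2⟩
    intro w hw
    obtain ⟨v, hv⟩ := h3.2 ⟨w, hw⟩
    have h4 := congrArg Subtype.val hv
    simp only at h4
    refine ⟨v.1, v.2, ?_⟩
    rw [← h4, add_sub_cancel]
  have hthree : ∀ x ∈ I, ∀ y ∈ I, ∀ z ∈ I, x + y + z ∈ I := by
    intro x hx y hy z hz
    have hx' := hW1 _ (Finset.mem_image_of_mem io hx)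
    have hy' := hW1 _ (Finset.mem_image_of_mem io hy)
    have hz' := hW1 _ (Finset.mem_image_of_mem io hz)
    obtain ⟨g, hg, hg2⟩ := hcos _ (W.add_mem (W.add_mem hx' hy') hz')
    have h1 : io (x + y + z) = io g := by
      rw [hg2]
      have h2 : io g0 + io g0 = 0 := by
        refine Prod.ext ?_ ?_ <;> funext s <;> exact CharTwo.add_self_eq_zero _
      have h3 : io g0 + ((io x - io g0) + (io y - io g0) + (io z - io g0)) =
          io x + io y + io z - (io g0 + io g0) := by abel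
      rw [h3, h2, sub_zero]
      rfl
    rw [io_inj h1]
    exact hg
  have hdec : ∀ a b : ZMod 2, a * b = 0 → a ≠ 0 → b = 0 := by decide
  have hdec2 : ∀ a b : ZMod 2, a * b = 0 → b ≠ 0 → a = 0 := by decide
  have hne1 : ∀ a : ZMod 2, a ≠ 0 → a = 1 := by decide
  have hT : ∀ s, ∃ t : Fin 3, ∀ g ∈ I, K t (g s) := by
    intro s
    by_cases h1 : ∀ g ∈ I, (g s).1 = 0
    · exact ⟨0, fun g hg => by
        unfold K
        rw [if_pos rfl]
        exact h1 g hg⟩
    by_cases h2 : ∀ g ∈ I, (g s).2 = 0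
    · exact ⟨1, fun g hg => by
        unfold K
        rw [if_neg (by decide), if_pos rfl]
        exact h2 g hg⟩
    refine ⟨2, fun z hz => ?_⟩
    unfold K
    rw [if_neg (by decide), if_neg (by decide)]
    push Not at h1 h2
    obtain ⟨x, hx, hx1⟩ := h1
    obtain ⟨y, hy, hy1⟩ := h2
    have hx2 := hdec _ _ (hZ x hx s) hx1
    have hy2 := hdec2 _ _ (hZ y hy s) hy1
    have h3 := hZ _ (hthree x hx y hy z hz) s
    have h4 : ((x + y + z) s).1 = (x s).1 + (y s).1 + (z s).1 := rfl
    have h5 : ((x + y + z) s).2 = (x s).2 + (y s).2 + (z s).2 := rfl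
    rw [h4, h5, hx2, hy2, hne1 _ hx1, hne1 _ hy1] at h3
    have h6 := hZ z hz s
    have h7 : ∀ a b : ZMod 2, (1 + 0 + a) * (0 + 1 + b) = 0 → a * b = 0 → a + b = 1 := by decide
    exact h7 _ _ h3 h6
  choose t ht using hT
  have hU : I = Fintype.piFinset fun s : Fin 4 => Finset.univ.filter (K (t s)) := by
    refine Finset.eq_of_subset_of_card_le ?_ ?_
    · intro g hg
      rw [Fintype.mem_piFinset]
      intro s
      exact Finset.mem_filter.mpr ⟨Finset.mem_univ _, ht s g hg⟩
    · rw [Fintype.card_piFinset]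
      simp only [K_card]
      rw [Finset.prod_const, Finset.card_univ, Fintype.card_fin]
      exact hcard
  have hmem : ∀ g : G, (∀ s, K (t s) (g s)) → g ∈ I := by
    intro g hg
    rw [hU, Fintype.mem_piFinset]
    intro s
    exact Finset.mem_filter.mpr ⟨Finset.mem_univ _, hg s⟩
  obtain ⟨b0, hb0⟩ := K_ne (t 0)
  obtain ⟨b1, hb1⟩ := K_ne (t 1)
  obtain ⟨b2, hb2⟩ := K_ne (t 2)
  obtain ⟨b3, hb3⟩ := K_ne (t 3)
  have e01 : t 0 = t 1 := by
    by_contra hne
    obtain ⟨p, u, p', u', k1, k2, k3, k4, k5⟩ := K_diff (t 0) (t 1) hne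
    have m1 := hmem ![p, p', b2, b3] (by
      intro s
      fin_cases s
      · exact k1
      · exact k3
      · exact hb2
      · exact hb3)
    have m2 := hmem ![u, u', b2, b3] (by
      intro s
      fin_cases s
      · exact k2
      · exact k4
      · exact hb2
      · exact hb3)
    have h1 := hI _ m1 _ m2
    apply k5
    rw [← h1]
    change _ = (p.1 - u.1) * (p'.2 - u'.2) + (p'.1 - u'.1) * (p.2 - u.2) +
      ((b2.1 - b2.1) * (b3.2 - b3.2) + (b3.1 - b3.1) * (b2.2 - b2.2))
    ring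
  have e23 : t 2 = t 3 := by
    by_contra hne
    obtain ⟨p, u, p', u', k1, k2, k3, k4, k5⟩ := K_diff (t 2) (t 3) hne
    have m1 := hmem ![b0, b1, p, p'] (by
      intro s
      fin_cases s
      · exact hb0
      · exact hb1
      · exact k1
      · exact k3)
    have m2 := hmem ![b0, b1, u, u'] (by
      intro s
      fin_cases s
      · exact hb0
      · exact hb1
      · exact k2
      · exact k4)
    have h1 := hI _ m1 _ m2
    apply k5
    rw [← h1]
    change _ = (b0.1 - b0.1) * (b1.2 - b1.2) + (b1.1 - b1.1) * (b0.2 - b0.2) +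
      ((p.1 - u.1) * (p'.2 - u'.2) + (p'.1 - u'.1) * (p.2 - u.2))
    ring
  refine ⟨t 0, t 2, fun g hg s => ?_⟩
  have h1 := ht s g hg
  fin_cases s
  · exact h1
  · rw [e01]
    exact h1
  · exact h1
  · change K (t 2) (g 3)
    rw [e23]
    exact h1

theorem card_G : Fintype.card G = 256 := by
  rw [Fintype.card_fun, Fintype.card_prod, ZMod.card, Fintype.card_fin]
  norm_num

open Classical in
/-- the small sets -/
noncomputable def Sm : Finset (Finset G) := Finset.univ.filter (fun I : Finset G => I.card ≤ 15)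

theorem mem_Sm (I : Finset G) : I ∈ Sm ↔ I.card ≤ 15 := by
  unfold Sm
  rw [Finset.mem_filter]
  exact and_iff_right (Finset.mem_univ I)

theorem card_Sm : Sm.card ≤ 2 ^ Fintype.card G := by
  unfold Sm
  refine (Finset.card_filter_le _ _).trans ?_
  rw [Finset.card_univ, Fintype.card_finset]

open Classical in
/-- the maps with a small image -/
noncomputable def A3 (r : ℕ) : Finset (Fin r → G) :=
  Sm.biUnion (fun I => Fintype.piFinset (fun _ => I))

theorem mem_A3 {r : ℕ} (v : Fin r → G) (I : Finset G) (hI : I.card ≤ 15) (hv : ∀ x, v x ∈ I) :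
    v ∈ A3 r := by
  unfold A3
  rw [Finset.mem_biUnion]
  exact ⟨I, (mem_Sm I).mpr hI, Fintype.mem_piFinset.mpr hv⟩

theorem card_A3 (r : ℕ) : (A3 r).card ≤ 2 ^ 256 * 15 ^ r := by
  unfold A3
  have h2 := Finset.card_biUnion_le_card_mul Sm
    (fun I => Fintype.piFinset (fun _ : Fin r => I)) (15 ^ r) (by
      intro I hI
      rw [Fintype.card_piFinset_const]
      exact Nat.pow_le_pow_left ((mem_Sm I).mp hI) r)
  have h3 := card_Sm
  rw [card_G] at h3
  exact h2.trans (Nat.mul_le_mul_right _ h3)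

/-- the good maps -/
def Good2 (r : ℕ) : Set (Fin r → G) :=
  {v | (∀ x s, (v x s).1 * (v x s).2 = 0) ∧ ∀ x y, q (v x) (v y) = 0}

set_option maxRecDepth 100000 in
theorem good2_card (r : ℕ) : (Good2 r).ncard ≤ 9 * 16 ^ r + 2 ^ 256 * 15 ^ r := by
  classical
  let U : Fin 3 × Fin 3 → Finset G := fun ij =>
    Fintype.piFinset fun s : Fin 4 => Finset.univ.filter (K (if (s : ℕ) < 2 then ij.1 else ij.2))
  have hUc : ∀ ij, (U ij).card = 16 := by
    intro ij
    change (Fintype.piFinset fun s : Fin 4 =>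
      Finset.univ.filter (K (if (s : ℕ) < 2 then ij.1 else ij.2))).card = 16
    rw [Fintype.card_piFinset]
    simp only [K_card]
    rw [Finset.prod_const, Finset.card_univ, Fintype.card_fin]
    norm_num
  let A1 : Finset (Fin r → G) :=
    (Finset.univ : Finset (Fin 3 × Fin 3)).biUnion (fun ij => Fintype.piFinset (fun _ => U ij))
  have h1 : Good2 r ⊆ ((A1 ∪ A3 r : Finset _) : Set (Fin r → G)) := by
    intro v hv
    have h2 := cl3 (Finset.univ.image v)
      (by
        intro w hw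
        obtain ⟨x, -, rfl⟩ := Finset.mem_image.mp hw
        exact hv.1 x)
      (by
        intro w hw w' hw'
        obtain ⟨x, -, rfl⟩ := Finset.mem_image.mp hw
        obtain ⟨y, -, rfl⟩ := Finset.mem_image.mp hw'
        exact hv.2 x y)
    rw [Finset.mem_coe, Finset.mem_union]
    rcases h2 with h2 | ⟨i, j, h2⟩
    · right
      obtain ⟨I, hI⟩ : ∃ I : Finset G, I = Finset.univ.image v := ⟨_, rfl⟩
      have h5 : I.card ≤ 15 := by
        rw [hI]
        omega
      have h6 : ∀ x, v x ∈ I := by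
        intro x
        rw [hI]
        exact Finset.mem_image_of_mem _ (Finset.mem_univ x)
      exact mem_A3 v I h5 h6
    · left
      refine Finset.mem_biUnion.mpr ⟨(i, j), Finset.mem_univ _, ?_⟩
      refine Fintype.mem_piFinset.mpr fun x => ?_
      change v x ∈ Fintype.piFinset fun s : Fin 4 =>
        Finset.univ.filter (K (if (s : ℕ) < 2 then i else j))
      refine Fintype.mem_piFinset.mpr fun s => ?_
      exact Finset.mem_filter.mpr ⟨Finset.mem_univ _,
        h2 _ (Finset.mem_image_of_mem _ (Finset.mem_univ x)) s⟩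
  have hA1 : A1.card ≤ 9 * 16 ^ r := by
    have h9 : (Finset.univ : Finset (Fin 3 × Fin 3)).card = 9 := by
      rw [Finset.card_univ, Fintype.card_prod, Fintype.card_fin]
    have h2 := Finset.card_biUnion_le_card_mul (Finset.univ : Finset (Fin 3 × Fin 3))
      (fun ij => Fintype.piFinset (fun _ : Fin r => U ij)) (16 ^ r) (by
        intro ij _
        rw [Fintype.card_piFinset_const, hUc])
    rw [h9] at h2
    exact h2
  have hA3 := card_A3 r
  calc (Good2 r).ncard ≤ ((A1 ∪ A3 r : Finset _) : Set (Fin r → G)).ncard :=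
        Set.ncard_le_ncard h1 (Finset.finite_toSet _)
    _ = (A1 ∪ A3 r).card := Set.ncard_coe_finset _
    _ ≤ A1.card + (A3 r).card := Finset.card_union_le _ _
    _ ≤ _ := Nat.add_le_add hA1 hA3

section sums

variable {r : ℕ}

local instance : Fact (Nat.Prime 2) := ⟨Nat.prime_two⟩

theorem Lam_zero (a : Fin r → V 2 2) (i : Fin r × Fin 2) :
    Pool.Agent.D0H52.RM.Lam (fun _ : Fin r => (1 : ZMod 2)) a 0 i = 0 := by
  rw [map_zero]
  rfl

/-- the coefficient of `p_xs` -/
theorem coef_p (a : Fin r → V 2 2) (c : Fin r × Fin 2 → ZMod 2) (x : Fin r) (s : Fin 2) :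
    ∑ i, c i * Pool.Agent.D0H52.RM.Lam (fun _ : Fin r => (1 : ZMod 2)) a
      (0, Pi.single x (Pi.single s 1)) i = a x s * (c (x, s) + ∑ b, c (x, b)) := by
  classical
  have h2 : ∀ i : Fin r × Fin 2, Pool.Agent.D0H52.RM.Lam (fun _ : Fin r => (1 : ZMod 2)) a
      (0, Pi.single x (Pi.single s 1)) i =
      if i.1 = x then (a x s + if i.2 = s then a x s else 0) else 0 := by
    rintro ⟨y, b⟩
    change ∑ z, (1 : ZMod 2) * sy (0 : ∀ i : Fin r, Fin (i : ℕ) → ZMod 2) y z * (a y b - a z b) +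
      ∑ s', a y s' * (Pi.single x (Pi.single s 1) : Fin r → V 2 2) y s' +
      a y b * (Pi.single x (Pi.single s 1) : Fin r → V 2 2) y b = _
    have h3 : ∀ z, sy (0 : ∀ i : Fin r, Fin (i : ℕ) → ZMod 2) y z = 0 := by
      intro z
      unfold sy
      split_ifs <;> rfl
    by_cases hy : y = x
    · subst hy
      simp only [h3, mul_zero, zero_mul, Finset.sum_const_zero, zero_add, Pi.single_eq_same,
        if_true]
      have h4 : ∑ s', a y s' * (Pi.single s 1 : V 2 2) s' = a y s := by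
        rw [Finset.sum_eq_single s]
        · rw [Pi.single_eq_same, mul_one]
        · intro s' _ hs'
          rw [Pi.single_eq_of_ne hs', mul_zero]
        · intro h
          exact absurd (Finset.mem_univ _) h
      rw [h4]
      congr 1
      by_cases hb : b = s
      · subst hb
        rw [Pi.single_eq_same, mul_one, if_pos rfl]
      · rw [Pi.single_eq_of_ne hb, mul_zero, if_neg hb]
    · rw [Pi.single_eq_of_ne hy]
      simp [h3, hy]
  simp only [h2]
  rw [Fintype.sum_prod_type, Finset.sum_eq_single x]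
  · simp only [if_true]
    simp only [mul_add, Finset.sum_add_distrib]
    have h4 : ∑ b, c (x, b) * (if b = s then a x s else 0) = c (x, s) * a x s := by
      rw [Finset.sum_eq_single s]
      · rw [if_pos rfl]
      · intro b _ hb
        rw [if_neg hb, mul_zero]
      · intro h
        exact absurd (Finset.mem_univ _) h
    rw [h4, ← Finset.sum_mul]
    ring
  · intro y _ hy
    apply Finset.sum_eq_zero
    intro b _
    simp only [hy, if_false, mul_zero]
  · intro h
    exact absurd (Finset.mem_univ _) h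

open Classical in
/-- the test matrix -/
noncomputable def tB (x y : Fin r) : ∀ i : Fin r, Fin (i : ℕ) → ZMod 2 :=
  fun i j => if i = x ∧ (j : ℕ) = y then 1 else 0

/-- the coefficient of `B_xy` -/
theorem coef_B (a : Fin r → V 2 2) (c : Fin r × Fin 2 → ZMod 2) (x y : Fin r)
    (hxy : (y : ℕ) < x) :
    ∑ i, c i * Pool.Agent.D0H52.RM.Lam (fun _ : Fin r => (1 : ZMod 2)) a (tB x y, 0) i =
      ∑ b, (a x b - a y b) * (c (x, b) - c (y, b)) := by
  classical
  have hne : x ≠ y := by
    rintro rfl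
    exact lt_irrefl _ hxy
  have hB : ∀ i j, sy (tB x y) i j = if (i = x ∧ j = y) ∨ (i = y ∧ j = x) then 1 else 0 := by
    intro i j
    unfold sy
    by_cases h1 : (j : ℕ) < i
    · rw [dif_pos h1]
      change (if i = x ∧ (j : ℕ) = y then (1 : ZMod 2) else 0) = _
      by_cases h2 : i = x ∧ j = y
      · rw [if_pos ⟨h2.1, congrArg Fin.val h2.2⟩, if_pos (Or.inl h2)]
      · rw [if_neg (fun h => h2 ⟨h.1, Fin.ext h.2⟩), if_neg]
        rintro (h | ⟨rfl, rfl⟩)
        · exact h2 h
        · omega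
    · rw [dif_neg h1]
      by_cases h3 : (i : ℕ) < j
      · rw [dif_pos h3]
        change (if j = x ∧ (i : ℕ) = y then (1 : ZMod 2) else 0) = _
        by_cases h2 : j = x ∧ i = y
        · rw [if_pos ⟨h2.1, congrArg Fin.val h2.2⟩, if_pos (Or.inr ⟨h2.2, h2.1⟩)]
        · rw [if_neg (fun h => h2 ⟨h.1, Fin.ext h.2⟩), if_neg]
          rintro (⟨rfl, rfl⟩ | h)
          · omega
          · exact h2 ⟨h.2, h.1⟩
      · rw [dif_neg h3, if_neg]
        have h4 : i = j := Fin.ext (by omega)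
        rintro (⟨rfl, rfl⟩ | ⟨rfl, rfl⟩)
        · exact hne h4
        · exact hne h4.symm
  have h2 : ∀ i : Fin r × Fin 2,
      Pool.Agent.D0H52.RM.Lam (fun _ : Fin r => (1 : ZMod 2)) a (tB x y, 0) i =
      (if i.1 = x then (a x i.2 - a y i.2) else 0) +
        (if i.1 = y then (a y i.2 - a x i.2) else 0) := by
    rintro ⟨i, b⟩
    change ∑ z, (1 : ZMod 2) * sy (tB x y) i z * (a i b - a z b) +
      ∑ s', a i s' * (0 : Fin r → V 2 2) i s' + a i b * (0 : Fin r → V 2 2) i b = _
    simp only [Pi.zero_apply, mul_zero, Finset.sum_const_zero, add_zero, hB, one_mul]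
    by_cases hix : i = x
    · subst hix
      rw [if_pos rfl, if_neg hne, add_zero, Finset.sum_eq_single y]
      · simp
      · intro z _ hz
        rw [if_neg]
        · ring
        · rintro (h | h)
          · exact hz h.2
          · exact hne h.1
      · intro h
        exact absurd (Finset.mem_univ _) h
    · by_cases hiy : i = y
      · subst hiy
        rw [if_neg hix, if_pos rfl, zero_add, Finset.sum_eq_single x]
        · simp
        · intro z _ hz
          rw [if_neg]
          · ring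
          · rintro (h | h)
            · exact hix h.1
            · exact hz h.2
        · intro h
          exact absurd (Finset.mem_univ _) h
      · rw [if_neg hix, if_neg hiy, add_zero]
        apply Finset.sum_eq_zero
        intro z _
        rw [if_neg]
        · ring
        · rintro (h | h)
          · exact hix h.1
          · exact hiy h.1
  simp only [h2, mul_add, Finset.sum_add_distrib]
  have h3 : ∀ (w : Fin r) (g : Fin 2 → ZMod 2), ∑ i : Fin r × Fin 2, c i *
      (if i.1 = w then g i.2 else 0) = ∑ b, c (w, b) * g b := by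
    intro w g
    rw [Fintype.sum_prod_type, Finset.sum_eq_single w]
    · simp only [if_true]
    · intro z _ hz
      apply Finset.sum_eq_zero
      intro b _
      simp only [hz, if_false, mul_zero]
    · intro h
      exact absurd (Finset.mem_univ _) h
  rw [h3 x (fun b => (a x b - a y b)), h3 y (fun b => (a y b - a x b))]
  rw [← Finset.sum_add_distrib]
  refine Finset.sum_congr rfl fun b _ => ?_
  ring

/-- the data of two curves -/
abbrev Y (r : ℕ) : Type := Bm r × ((Fin r → V 2 2) × (Fin r → V 2 2))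

/-- the index set -/
abbrev J (r : ℕ) : Type := (Fin r × Fin 2) ⊕ (Fin r × Fin 2)

/-- the double system as a linear map of the data -/
noncomputable def Lam2 (a a' : Fin r → V 2 2) : Y r →ₗ[ZMod 2] (J r → ZMod 2) where
  toFun x := Sum.elim (Pool.Agent.D0H52.RM.Lam (fun _ : Fin r => (1 : ZMod 2)) a (x.1, x.2.1))
    (Pool.Agent.D0H52.RM.Lam (fun _ : Fin r => (1 : ZMod 2)) a' (x.1, x.2.2))
  map_add' x y := by
    have h1 : ((x + y).1, (x + y).2.1) = ((x.1, x.2.1) : X 2 2 r) + (y.1, y.2.1) := rfl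
    have h2 : ((x + y).1, (x + y).2.2) = ((x.1, x.2.2) : X 2 2 r) + (y.1, y.2.2) := rfl
    rw [h1, h2, map_add, map_add]
    funext i
    rcases i with i | i <;> rfl
  map_smul' c x := by
    have h1 : ((c • x).1, (c • x).2.1) = c • ((x.1, x.2.1) : X 2 2 r) := rfl
    have h2 : ((c • x).1, (c • x).2.2) = c • ((x.1, x.2.2) : X 2 2 r) := rfl
    rw [h1, h2, map_smul, map_smul]
    funext i
    rcases i with i | i <;> rfl

theorem Lam2_sum (a a' : Fin r → V 2 2) (c : J r → ZMod 2) (x : Y r) :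
    ∑ i, c i * Lam2 a a' x i =
      ∑ i, c (Sum.inl i) * Pool.Agent.D0H52.RM.Lam (fun _ : Fin r => (1 : ZMod 2)) a
        (x.1, x.2.1) i +
      ∑ i, c (Sum.inr i) * Pool.Agent.D0H52.RM.Lam (fun _ : Fin r => (1 : ZMod 2)) a'
        (x.1, x.2.2) i := by
  rw [Fintype.sum_sum_type]
  rfl

/-- the annihilator of the image -/
def Ann2 (a a' : Fin r → V 2 2) : Type :=
  {c : J r → ZMod 2 // ∀ x, ∑ i, c i * Lam2 a a' x i = 0}

/-- the map to the quadruples -/
def gg (a a' : Fin r → V 2 2) (c : J r → ZMod 2) (x : Fin r) : G :=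
  ![(a x 0, c (Sum.inl (x, 1))), (a x 1, c (Sum.inl (x, 0))),
    (a' x 0, c (Sum.inr (x, 1))), (a' x 1, c (Sum.inr (x, 0)))]

theorem gg_cone (a a' : Fin r → V 2 2) (c : Ann2 a a') (x : Fin r) (s : Fin 4) :
    (gg a a' c.1 x s).1 * (gg a a' c.1 x s).2 = 0 := by
  have hz : ∀ (b : Fin r → V 2 2) (d : Fin r × Fin 2 → ZMod 2), ∑ i, d i *
      Pool.Agent.D0H52.RM.Lam (fun _ : Fin r => (1 : ZMod 2)) b ((0 : Bm r), 0) i = 0 := by
    intro b d
    apply Finset.sum_eq_zero
    intro i _
    have h1 := Lam_zero b i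
    have h2 : ((0 : Bm r), (0 : Fin r → V 2 2)) = (0 : X 2 2 r) := rfl
    rw [h2, h1, mul_zero]
  have h1 : ∀ t : Fin 2, a x t * (c.1 (Sum.inl (x, t)) + ∑ b, c.1 (Sum.inl (x, b))) = 0 := by
    intro t
    have h2 := c.2 (0, Pi.single x (Pi.single t 1), 0)
    rw [Lam2_sum] at h2
    have h3 := coef_p a (fun i => c.1 (Sum.inl i)) x t
    have h4 := hz a' (fun i => c.1 (Sum.inr i))
    exact h3.symm.trans ((add_eq_left.mpr h4).symm.trans h2)
  have h1' : ∀ t : Fin 2, a' x t * (c.1 (Sum.inr (x, t)) + ∑ b, c.1 (Sum.inr (x, b))) = 0 := by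
    intro t
    have h2 := c.2 (0, 0, Pi.single x (Pi.single t 1))
    rw [Lam2_sum] at h2
    have h3 := coef_p a' (fun i => c.1 (Sum.inr i)) x t
    have h4 := hz a (fun i => c.1 (Sum.inl i))
    exact h3.symm.trans ((add_eq_right.mpr h4).symm.trans h2)
  have hf : ∀ u v w : ZMod 2, u * (v + (v + w)) = 0 → u * w = 0 := by decide
  have hf' : ∀ u v w : ZMod 2, u * (w + (v + w)) = 0 → u * v = 0 := by decide
  fin_cases s
  · have h2 := h1 0
    rw [Fin.sum_univ_two] at h2
    exact hf _ _ _ h2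
  · have h2 := h1 1
    rw [Fin.sum_univ_two] at h2
    exact hf' _ _ _ h2
  · have h2 := h1' 0
    rw [Fin.sum_univ_two] at h2
    exact hf _ _ _ h2
  · have h2 := h1' 1
    rw [Fin.sum_univ_two] at h2
    exact hf' _ _ _ h2

theorem gg_iso_lt (a a' : Fin r → V 2 2) (c : Ann2 a a') (x y : Fin r) (hxy : (y : ℕ) < x) :
    q (gg a a' c.1 x) (gg a a' c.1 y) = 0 := by
  have h2 := c.2 (tB x y, 0, 0)
  rw [Lam2_sum] at h2
  have h3 := coef_B a (fun i => c.1 (Sum.inl i)) x y hxy
  have h4 := coef_B a' (fun i => c.1 (Sum.inr i)) x y hxy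
  have h5 := (congrArg₂ (fun u v => u + v) h3 h4).symm.trans h2
  simp only [Fin.sum_univ_two] at h5
  exact h5

theorem q_symm (g h : G) : q g h = q h g := by
  unfold q
  ring

theorem gg_iso (a a' : Fin r → V 2 2) (c : Ann2 a a') (x y : Fin r) :
    q (gg a a' c.1 x) (gg a a' c.1 y) = 0 := by
  rcases lt_trichotomy (y : ℕ) x with h | h | h
  · exact gg_iso_lt a a' c x y h
  · have : y = x := Fin.ext h
    subst this
    unfold q
    ring
  · rw [q_symm]
    exact gg_iso_lt a a' c y x h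

theorem sum_ann2 : ∑ aa : (Fin r → V 2 2) × (Fin r → V 2 2), Nat.card (Ann2 aa.1 aa.2) ≤
    (Good2 r).ncard := by
  classical
  have hf : ∀ aa : (Fin r → V 2 2) × (Fin r → V 2 2), Finite (Ann2 aa.1 aa.2) := by
    intro aa
    unfold Ann2
    infer_instance
  rw [← Nat.card_sigma, ← Nat.card_coe_set_eq]
  refine Nat.card_le_card_of_injective
    (fun ac : (Σ aa : (Fin r → V 2 2) × (Fin r → V 2 2), Ann2 aa.1 aa.2) =>
    (⟨gg ac.1.1 ac.1.2 ac.2.1, fun x s => gg_cone ac.1.1 ac.1.2 ac.2 x s,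
      fun x y => gg_iso ac.1.1 ac.1.2 ac.2 x y⟩ : Good2 r)) ?_
  rintro ⟨⟨a, a'⟩, c⟩ ⟨⟨b, b'⟩, d⟩ h
  have h1 : gg a a' c.1 = gg b b' d.1 := congrArg Subtype.val h
  have h2 : a = b := by
    funext x s
    fin_cases s
    · exact congrArg Prod.fst (congrFun (congrFun h1 x) 0)
    · exact congrArg Prod.fst (congrFun (congrFun h1 x) 1)
  have h3 : a' = b' := by
    funext x s
    fin_cases s
    · exact congrArg Prod.fst (congrFun (congrFun h1 x) 2)
    · exact congrArg Prod.fst (congrFun (congrFun h1 x) 3)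
  subst h2
  subst h3
  have h4 : c = d := by
    apply Subtype.ext
    funext i
    rcases i with ⟨x, s⟩ | ⟨x, s⟩
    · fin_cases s
      · exact congrArg Prod.snd (congrFun (congrFun h1 x) 1)
      · exact congrArg Prod.snd (congrFun (congrFun h1 x) 0)
    · fin_cases s
      · exact congrArg Prod.snd (congrFun (congrFun h1 x) 3)
      · exact congrArg Prod.snd (congrFun (congrFun h1 x) 2)
  rw [h4]

theorem card_J : Nat.card (J r → ZMod 2) = 16 ^ r := by
  rw [Nat.card_eq_fintype_card, Fintype.card_fun, ZMod.card, Fintype.card_sum, Fintype.card_prod,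
    Fintype.card_fin, Fintype.card_fin]
  have h1 : r * 2 + r * 2 = 4 * r := by ring
  rw [h1, pow_mul]
  norm_num

theorem card_Y : Nat.card (Y r) = Nat.card (Bm r) * 16 ^ r := by
  rw [Nat.card_prod]
  congr 1
  rw [Nat.card_prod, Nat.card_eq_fintype_card, Fintype.card_fun, Pool.Agent.D0H52.RM.card_V,
    Fintype.card_fin, ← mul_pow]
  norm_num

theorem ker_sum : ∑ aa : (Fin r → V 2 2) × (Fin r → V 2 2),
    Nat.card (LinearMap.ker (Lam2 aa.1 aa.2)) ≤
      Nat.card (Bm r) * (9 * 16 ^ r + 2 ^ 256 * 15 ^ r) := by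
  have h1 : ∀ aa : (Fin r → V 2 2) × (Fin r → V 2 2),
      Nat.card (LinearMap.ker (Lam2 aa.1 aa.2)) = Nat.card (Bm r) * Nat.card (Ann2 aa.1 aa.2) := by
    intro aa
    have h2 := Pool.Agent.D0H52.RM.card_ker (Lam2 aa.1 aa.2)
    rw [card_J, card_Y] at h2
    have h3 : 0 < 16 ^ r := pow_pos (by norm_num) r
    apply Nat.eq_of_mul_eq_mul_right h3
    rw [h2]
    change Nat.card (Bm r) * 16 ^ r * Nat.card (Ann2 aa.1 aa.2) = _
    ring
  simp only [h1]
  rw [← Finset.mul_sum]
  exact Nat.mul_le_mul_left _ (sum_ann2.trans (good2_card r))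

/-- the perturbed system for fixed `a`, `a'` has at most as many solutions -/
theorem psol_le (δ : Fin r → ZMod 2) (κ lam : ZMod 2) (a a' : Fin r → V 2 2)
    (F : Finset (Y r)) (hF : ∀ x ∈ F, PSol δ κ lam (sy x.1) x.2.1 a ∧
      PSol δ κ lam (sy x.1) x.2.2 a') :
    F.card ≤ Nat.card (LinearMap.ker (Lam2 a a')) := by
  classical
  rcases F.eq_empty_or_nonempty with h0 | ⟨x0, hx0⟩
  · rw [h0, Finset.card_empty]
    exact Nat.zero_le _
  have key : ∀ (b : Fin r → V 2 2) (u v : X 2 2 r), PSol δ κ lam (sy u.1) u.2 b →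
      PSol δ κ lam (sy v.1) v.2 b →
      Pool.Agent.D0H52.RM.Lam (fun _ : Fin r => (1 : ZMod 2)) b (u - v) = 0 := by
    intro b u v hu hv
    rw [map_sub]
    funext p
    have e1 := hu p.1 p.2
    have e2 := hv p.1 p.2
    change (∑ y, 1 * sy u.1 p.1 y * (b p.1 p.2 - b y p.2) +
      ∑ s, b p.1 s * u.2 p.1 s + b p.1 p.2 * u.2 p.1 p.2) -
      (∑ y, 1 * sy v.1 p.1 y * (b p.1 p.2 - b y p.2) +
      ∑ s, b p.1 s * v.2 p.1 s + b p.1 p.2 * v.2 p.1 p.2) = 0
    simp only [one_mul]
    linear_combination e1 - e2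
  have h1 : ∀ x ∈ F, x - x0 ∈ LinearMap.ker (Lam2 a a') := by
    intro x hx
    rw [LinearMap.mem_ker]
    have k1 := key a (x.1, x.2.1) (x0.1, x0.2.1) (hF x hx).1 (hF x0 hx0).1
    have k2 := key a' (x.1, x.2.2) (x0.1, x0.2.2) (hF x hx).2 (hF x0 hx0).2
    funext i
    rcases i with i | i
    · exact congrFun k1 i
    · exact congrFun k2 i
  have h2 : F.card = Nat.card F := by
    rw [Nat.card_eq_fintype_card, Fintype.card_coe]
  rw [h2]
  refine Nat.card_le_card_of_injective
    (fun x : F => (⟨x.1 - x0, h1 x.1 x.2⟩ : LinearMap.ker (Lam2 a a'))) ?_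
  intro x y hxy
  have h3 := congrArg Subtype.val hxy
  simp only at h3
  exact Subtype.ext (sub_left_inj.mp h3)

end sums

end Pool.Agent.D0H52.OD.Mom2

namespace Pool.Agent.D0H52.OD

open Finset Pool.Agent.D0H99.RM Pool.Agent.D0H99.OD

/-- the second moment over the matrices -/
theorem t_MOM2 : ∀ (r : ℕ) (δ : Fin r → ZMod 2) (κ lam : ZMod 2),
    ∑ B : Bm r, (∑ p : Fin r → V 2 2, nsolP δ κ lam (B, p)) ^ 2 ≤
      Nat.card (Bm r) * (9 * 16 ^ r + 2 ^ 256 * 15 ^ r) := by
  classical
  intro r δ κ lam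
  let F : (Fin r → V 2 2) × (Fin r → V 2 2) → Finset (Mom2.Y r) := fun aa =>
    Finset.univ.filter fun x => PSol δ κ lam (sy x.1) x.2.1 aa.1 ∧ PSol δ κ lam (sy x.1) x.2.2 aa.2
  have h1 : ∑ aa, (F aa).card ≤ ∑ aa : (Fin r → V 2 2) × (Fin r → V 2 2),
      Nat.card (LinearMap.ker (Mom2.Lam2 aa.1 aa.2)) := by
    refine Finset.sum_le_sum fun aa _ => ?_
    refine Mom2.psol_le δ κ lam aa.1 aa.2 (F aa) ?_
    intro x hx
    exact (Finset.mem_filter.mp hx).2
  refine le_trans (le_of_eq ?_) (h1.trans Mom2.ker_sum)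
  have h2 : ∀ aa, (F aa).card = ∑ B : Bm r, ∑ pp : (Fin r → V 2 2) × (Fin r → V 2 2),
      if PSol δ κ lam (sy B) pp.1 aa.1 ∧ PSol δ κ lam (sy B) pp.2 aa.2 then 1 else 0 := by
    intro aa
    change (Finset.univ.filter fun x : Mom2.Y r =>
      PSol δ κ lam (sy x.1) x.2.1 aa.1 ∧ PSol δ κ lam (sy x.1) x.2.2 aa.2).card = _
    rw [Finset.card_filter, Fintype.sum_prod_type]
  simp only [h2]
  rw [Finset.sum_comm]
  refine Finset.sum_congr rfl fun B _ => ?_
  have h3 : ∑ p : Fin r → V 2 2, nsolP δ κ lam (B, p) =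
      ∑ a : Fin r → V 2 2, ∑ p : Fin r → V 2 2, if PSol δ κ lam (sy B) p a then 1 else 0 := by
    simp only [nsolP_eq]
    rw [Finset.sum_comm]
  rw [h3, sq, Fintype.sum_mul_sum, Fintype.sum_prod_type]
  refine Finset.sum_congr rfl fun a _ => Finset.sum_congr rfl fun a' _ => ?_
  rw [Fintype.sum_mul_sum, Fintype.sum_prod_type]
  refine Finset.sum_congr rfl fun p _ => Finset.sum_congr rfl fun p' _ => ?_
  by_cases k1 : PSol δ κ lam (sy B) p a
  · by_cases k2 : PSol δ κ lam (sy B) p' a'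
    · rw [if_pos k1, if_pos k2, if_pos ⟨k1, k2⟩, one_mul]
    · have k3 : ¬ (PSol δ κ lam (sy B) p a ∧ PSol δ κ lam (sy B) p' a') := fun h => k2 h.2
      rw [if_neg k2, if_neg k3, mul_zero]
  · have k3 : ¬ (PSol δ κ lam (sy B) p a ∧ PSol δ κ lam (sy B) p' a') := fun h => k1 h.1
    rw [if_neg k1, if_neg k3, zero_mul]

end Pool.Agent.D0H52.OD
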